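import Mathlib

set_option autoImplicit false

/-!
# Ottaviani-Paoletti: the recursion in the degree, abstract form

`M` is a bicomplex: `G a b K` = elements with `a` letters of degree `d = e + 1` (`S`-letters), `b`
letters of degree `e` (`A`-letters, they stand for the letters in `c P_e` of `P_d`) and coefficients
of degree `K`.  `dS`, `dA` are the two Koszul differentials, `cc` is the multiplication with `c`,
`D = dS + c dA` is the Koszul differential of `P_d`.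
-/

namespace Pool.Agent.H40.OPR

variable (k M : Type*) [Field k] [AddCommGroup M] [Module k M]

/-- the bicomplex -/
structure Bi (e : ℕ) where
  /-- `a` letters of degree `e + 1`, `b` letters of degree `e`, coefficients of degree `K` -/
  G : ℕ → ℕ → ℕ → Submodule k M
  /-- differential of the letters of degree `e + 1` -/
  dS : M →ₗ[k] M
  /-- differential of the letters of degree `e` -/
  dA : M →ₗ[k] M
  /-- multiplication with `c` -/
  cc : M →ₗ[k] M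
  dS_mem : ∀ {a b K : ℕ} {ω : M}, ω ∈ G (a + 1) b K → dS ω ∈ G a b (K + (e + 1))
  dS_zero : ∀ {b K : ℕ} {ω : M}, ω ∈ G 0 b K → dS ω = 0
  dA_mem : ∀ {a b K : ℕ} {ω : M}, ω ∈ G a (b + 1) K → dA ω ∈ G a b (K + e)
  dA_zero : ∀ {a K : ℕ} {ω : M}, ω ∈ G a 0 K → dA ω = 0
  cc_mem : ∀ {a b K : ℕ} {ω : M}, ω ∈ G a b K → cc ω ∈ G a b (K + 1)
  cc_strict : ∀ {a b K : ℕ} {ω : M}, cc ω ∈ G a b (K + 1) → ω ∈ G a b K
  cc_inj : ∀ {ω : M}, cc ω = 0 → ω = 0
  dSS : ∀ ω, dS (dS ω) = 0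
  dAA : ∀ ω, dA (dA ω) = 0
  dAS : ∀ ω, dA (dS ω) = - dS (dA ω)
  dSc : ∀ ω, dS (cc ω) = cc (dS ω)
  dAc : ∀ ω, dA (cc ω) = cc (dA ω)
  /-- levels are independent -/
  ind : ∀ {s p K : ℕ} {x y : M}, x ∈ G s (p - s) K →
    (y ∈ ⨆ (a : ℕ) (b : ℕ) (_ : a < s ∧ a + b = p), G a b K) → x + y = 0 → x = 0

variable {k M}

namespace Bi

variable {e : ℕ} (B : Bi k M e)

/-- the Koszul differential of the letters of degree `e + 1` (all of them) -/
def D : M →ₗ[k] M := B.dS + B.cc.comp B.dA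

lemma D_apply (ω : M) : B.D ω = B.dS ω + B.cc (B.dA ω) := rfl

lemma dSA (ω : M) : B.dS (B.dA ω) = - B.dA (B.dS ω) := by
  rw [B.dAS, neg_neg]

lemma DD (ω : M) : B.D (B.D ω) = 0 := by
  simp only [D_apply, map_add, B.dSS, B.dSc, B.dAc, B.dAA, B.dAS, map_zero, map_neg]
  abel

lemma D_cc (ω : M) : B.D (B.cc ω) = B.cc (B.D ω) := by
  simp only [D_apply, map_add, B.dSc, B.dAc]

lemma cc_inj' {x y : M} (h : B.cc x = B.cc y) : x = y := by
  have : B.cc (x - y) = 0 := by rw [map_sub, h, sub_self]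
  exact sub_eq_zero.mp (B.cc_inj this)

/-- less than `s` letters of degree `e + 1`, `p` letters altogether -/
def FL (s p K : ℕ) : Submodule k M := ⨆ (a : ℕ) (b : ℕ) (_ : a < s ∧ a + b = p), B.G a b K

lemma G_le_FL {a b s p K : ℕ} (h : a < s) (h2 : a + b = p) : B.G a b K ≤ B.FL s p K :=
  le_iSup_of_le a (le_iSup_of_le b (le_iSup_of_le ⟨h, h2⟩ le_rfl))

lemma FL_mono {s s' p K : ℕ} (h : s ≤ s') : B.FL s p K ≤ B.FL s' p K :=
  iSup_le fun _ => iSup_le fun _ => iSup_le fun hab => B.G_le_FL (lt_of_lt_of_le hab.1 h) hab.2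

lemma FL_zero (p K : ℕ) : B.FL 0 p K = ⊥ := by
  rw [eq_bot_iff]
  exact iSup_le fun a => iSup_le fun b => iSup_le fun hab => absurd hab.1 (Nat.not_lt_zero _)

lemma FL_induction {s p K : ℕ} {P : M → Prop} (h0 : P 0) (hadd : ∀ x y, P x → P y → P (x + y))
    (hG : ∀ a b, a < s → a + b = p → ∀ x ∈ B.G a b K, P x) {x : M} (hx : x ∈ B.FL s p K) :
    P x := by
  unfold FL at hx
  refine Submodule.iSup_induction (motive := P) _ hx (fun a x hx => ?_) h0 hadd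
  refine Submodule.iSup_induction (motive := P) _ hx (fun b x hx => ?_) h0 hadd
  refine Submodule.iSup_induction (motive := P) _ hx (fun h x hx => ?_) h0 hadd
  exact hG a b h.1 h.2 x hx

lemma FL_succ {s m p K : ℕ} (h : s + m = p) {x : M} (hx : x ∈ B.FL (s + 1) p K) :
    ∃ θ ∈ B.G s m K, ∃ ω ∈ B.FL s p K, x = θ + ω := by
  refine B.FL_induction (P := fun x => ∃ θ ∈ B.G s m K, ∃ ω ∈ B.FL s p K, x = θ + ω)
    ⟨0, zero_mem _, 0, zero_mem _, (add_zero 0).symm⟩ ?_ ?_ hx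
  · rintro x y ⟨θ, hθ, ω, hω, rfl⟩ ⟨θ', hθ', ω', hω', rfl⟩
    exact ⟨θ + θ', add_mem hθ hθ', ω + ω', add_mem hω hω', by abel⟩
  · intro a b ha hab y hy
    rcases Nat.lt_succ_iff_lt_or_eq.mp ha with h1 | h1
    · exact ⟨0, zero_mem _, y, B.G_le_FL h1 hab hy, (zero_add y).symm⟩
    · subst h1
      have : b = m := by omega
      subst this
      exact ⟨y, hy, 0, zero_mem _, (add_zero y).symm⟩

lemma FL_succ_lt {s p K : ℕ} (h : p < s) {x : M} (hx : x ∈ B.FL (s + 1) p K) :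
    x ∈ B.FL s p K := by
  refine B.FL_induction (P := fun x => x ∈ B.FL s p K) (zero_mem _)
    (fun x y hx hy => add_mem hx hy) (fun a b ha hab x hx => B.G_le_FL (by omega) hab hx) hx

lemma dS_FL {s p K : ℕ} {x : M} (hx : x ∈ B.FL (s + 1) (p + 1) K) :
    B.dS x ∈ B.FL s p (K + (e + 1)) := by
  refine B.FL_induction (P := fun x => B.dS x ∈ B.FL s p (K + (e + 1))) (by simp)
    (fun x y hx hy => by rw [map_add]; exact add_mem hx hy) ?_ hx
  intro a b ha hab x hx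
  rcases a with _ | a
  · rw [B.dS_zero hx]
    exact zero_mem _
  · exact B.G_le_FL (by omega) (by omega) (B.dS_mem hx)

lemma ccdA_FL {s p K : ℕ} {x : M} (hx : x ∈ B.FL s (p + 1) K) :
    B.cc (B.dA x) ∈ B.FL s p (K + (e + 1)) := by
  refine B.FL_induction (P := fun x => B.cc (B.dA x) ∈ B.FL s p (K + (e + 1))) (by simp)
    (fun x y hx hy => by rw [map_add, map_add]; exact add_mem hx hy) ?_ hx
  intro a b ha hab x hx
  rcases b with _ | b
  · rw [B.dA_zero hx, map_zero]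
    exact zero_mem _
  · exact B.G_le_FL (by omega) (by omega) (B.cc_mem (B.dA_mem hx))

lemma D_FL {s p K : ℕ} {x : M} (hx : x ∈ B.FL s (p + 1) K) :
    B.D x ∈ B.FL s p (K + (e + 1)) := by
  rw [D_apply]
  exact add_mem (B.dS_FL (B.FL_mono (Nat.le_succ s) hx)) (B.ccdA_FL hx)

/-- `dA` is exact at `G a b (κ + e)` -/
def XA (a b κ : ℕ) : Prop :=
  ∀ ω ∈ B.G a b (κ + e), B.dA ω = 0 → ∃ η ∈ B.G a (b + 1) κ, B.dA η = ω

/-- `dA` mod `c` is exact at `G a b (κ + e)` -/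
def XAQ (a b κ : ℕ) : Prop :=
  ∀ ω ∈ B.G a b (κ + e), (∃ z, B.dA ω = B.cc z) → ∃ η ∈ B.G a (b + 1) κ, ∃ z, ω = B.dA η + B.cc z

/-- `dS` mod `c` is exact at `G a b (κ + (e + 1))` -/
def XSQ (a b κ : ℕ) : Prop :=
  ∀ ω ∈ B.G a b (κ + (e + 1)), (∃ z, B.dS ω = B.cc z) →
    ∃ η ∈ B.G (a + 1) b κ, ∃ z, ω = B.dS η + B.cc z

/-- an element which is closed for `dA` modulo `c` can be changed modulo `c` to a closed one -/
lemma lift {a b κ : ℕ} (h : B.XA a b κ) {y : M} (hy : y ∈ B.G a (b + 1) (κ + 1))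
    (hc : ∃ z, B.dA y = B.cc z) : ∃ y' ∈ B.G a (b + 1) (κ + 1), B.dA y' = 0 ∧ ∃ r, y = y' + B.cc r := by
  obtain ⟨z, hz⟩ := hc
  have h1 : B.dA y ∈ B.G a b (κ + e + 1) := by
    have := B.dA_mem hy
    rwa [show κ + 1 + e = κ + e + 1 by ring] at this
  have h2 : z ∈ B.G a b (κ + e) := B.cc_strict (hz ▸ h1)
  have h3 : B.dA z = 0 := by
    apply B.cc_inj
    rw [← B.dAc, ← hz, B.dAA]
  obtain ⟨r, hr, hr'⟩ := h z h2 h3
  refine ⟨y - B.cc r, sub_mem hy (B.cc_mem hr), ?_, r, by abel⟩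
  rw [map_sub, B.dAc, hr', hz, sub_self]

/-- lifting, all cases (`b = 0` included) -/
lemma lift' {a b κ : ℕ} (h : ∀ b', b = b' + 1 → B.XA a b' κ) {y : M} (hy : y ∈ B.G a b (κ + 1))
    (hc : ∃ z, B.dA y = B.cc z) : ∃ y' ∈ B.G a b (κ + 1), B.dA y' = 0 ∧ ∃ r, y = y' + B.cc r := by
  rcases b with _ | b
  · exact ⟨y, hy, B.dA_zero hy, 0, by simp⟩
  · exact B.lift (h b rfl) hy hc

/-- **Lemma Z**: bi-closed elements (modulo `c`) are boundaries of `dA`-closed ones (modulo `c`). -/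
theorem lemmaZ : ∀ (a b κ : ℕ), (∀ j ≤ a, B.XAQ (a - j) (b + j) (κ + j + (e + 1))) →
    (∀ j ≤ a, B.XSQ (a - j) (b + 1 + j) (κ + j)) →
    ∀ ω ∈ B.G a b (κ + (e + 1) + e), (∃ z, B.dA ω = B.cc z) → (∃ z, B.dS ω = B.cc z) →
    ∃ η ∈ B.G (a + 1) b (κ + e), B.dA η = 0 ∧ ∃ z, ω = B.dS η + B.cc z := by
  intro a
  induction a with
  | zero =>
    intro b κ hA hS ω hω hωA _
    obtain ⟨W, hW, z, hz⟩ := hA 0 le_rfl ω hω hωA
    obtain ⟨X, hX, z', hz'⟩ := hS 0 le_rfl W hW ⟨0, by rw [B.dS_zero hW, map_zero]⟩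
    refine ⟨- B.dA X, neg_mem (B.dA_mem hX), by rw [map_neg, B.dAA, neg_zero], B.dA z' + z, ?_⟩
    rw [hz, hz', map_add, B.dAS, B.dAc, map_neg, map_add]
    abel
  | succ a ih =>
    intro b κ hA hS ω hω hωA hωS
    obtain ⟨W, hW, z, hz⟩ := hA 0 (Nat.zero_le _) ω hω hωA
    have hW1 : B.dS W ∈ B.G a (b + 1) (κ + 1 + (e + 1) + e) := by
      have := B.dS_mem hW
      rwa [show κ + 0 + (e + 1) + (e + 1) = κ + 1 + (e + 1) + e by ring] at this
    obtain ⟨u, hu⟩ := hωS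
    have hW2 : B.dA (B.dS W) = B.cc (B.dS z - u) := by
      have h6 : B.dS (B.dA W) = B.dS ω - B.cc (B.dS z) := by
        rw [hz, map_add, B.dSc]; abel
      rw [B.dAS, h6, hu, map_sub]
      abel
    obtain ⟨η1, hη1, hη1', v, hv⟩ := ih (b + 1) (κ + 1)
      (fun j hj => by
        have := hA (j + 1) (by omega)
        rwa [show a + 1 - (j + 1) = a - j by omega, show b + (j + 1) = b + 1 + j by ring,
          show κ + (j + 1) + (e + 1) = κ + 1 + j + (e + 1) by ring] at this)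
      (fun j hj => by
        have := hS (j + 1) (by omega)
        rwa [show a + 1 - (j + 1) = a - j by omega, show b + 1 + (j + 1) = b + 1 + 1 + j by ring,
          show κ + (j + 1) = κ + 1 + j by ring] at this)
      (B.dS W) hW1 ⟨_, hW2⟩ ⟨0, by rw [B.dSS, map_zero]⟩
    have hη1m : η1 ∈ B.G (a + 1) (b + 1) (κ + (e + 1)) := by
      rwa [show κ + 1 + e = κ + (e + 1) by ring] at hη1
    obtain ⟨X, hX, w, hw⟩ := hS 0 (Nat.zero_le _) (W - η1) (sub_mem hW hη1m)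
      ⟨v, by rw [map_sub, hv]; abel⟩
    refine ⟨- B.dA X, neg_mem (B.dA_mem hX), by rw [map_neg, B.dAA, neg_zero], B.dA w + z, ?_⟩
    have h5 : B.dA W = B.dA (W - η1) := by rw [map_sub, hη1', sub_zero]
    rw [hz, h5, hw, map_add, B.dAS, B.dAc, map_neg, map_add]
    abel

/-! ### components of cycles -/

lemma dS_G {s m K : ℕ} {θ : M} (hθ : θ ∈ B.G s (m + 1) K) :
    B.dS θ ∈ B.FL s (s + m) (K + (e + 1)) := by
  rcases s with _ | s
  · rw [B.dS_zero hθ]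
    exact zero_mem _
  · exact B.G_le_FL (Nat.lt_succ_self s) (by omega) (B.dS_mem hθ)

/-- the leading component of a cycle is closed for `dA` -/
lemma top_closed {s m K : ℕ} {θ ω : M} (hθ : θ ∈ B.G s m K) (hω : ω ∈ B.FL s (s + m) K)
    (h : B.D (θ + ω) = 0) : B.dA θ = 0 ∧ B.dS θ + B.D ω = 0 := by
  have h0 : B.cc (B.dA θ) + (B.dS θ + B.D ω) = 0 := by
    rw [← h, map_add, B.D_apply θ]
    abel
  have h1 : B.cc (B.dA θ) = 0 := by
    rcases m with _ | m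
    · rw [B.dA_zero hθ, map_zero]
    · refine B.ind (s := s) (p := s + m) (K := K + (e + 1)) ?_ ?_ h0
      · rw [Nat.add_sub_cancel_left]
        have := B.cc_mem (B.dA_mem hθ)
        rwa [show K + e + 1 = K + (e + 1) by ring] at this
      · exact add_mem (B.dS_G hθ) (B.D_FL hω)
  rw [h1, zero_add] at h0
  exact ⟨B.cc_inj h1, h0⟩

/-- the leading component of a cycle is closed for `dS` modulo `c` -/
lemma top_closedS {s m K : ℕ} {θ ω : M} (hθ : θ ∈ B.G s m K) (hω : ω ∈ B.FL s (s + m) K)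
    (h : B.D (θ + ω) = 0) : ∃ z, B.dS θ = B.cc z := by
  rcases s with _ | s
  · exact ⟨0, by rw [B.dS_zero hθ, map_zero]⟩
  · obtain ⟨_, h2⟩ := B.top_closed hθ hω h
    obtain ⟨θ', hθ', ω', hω', rfl⟩ := B.FL_succ (s := s) (m := m + 1) (by omega) hω
    have h3 : B.dS θ + B.cc (B.dA θ') = 0 := by
      refine B.ind (s := s) (p := s + m) (K := K + (e + 1)) (y := B.dS θ' + B.D ω') ?_ ?_ ?_
      · rw [Nat.add_sub_cancel_left]
        refine add_mem (B.dS_mem hθ) ?_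
        have := B.cc_mem (B.dA_mem hθ')
        rwa [show K + e + 1 = K + (e + 1) by ring] at this
      · refine add_mem (B.dS_G hθ') (B.D_FL ?_)
        rwa [show s + m + 1 = s + 1 + m by omega]
      · rw [← h2, map_add, B.D_apply θ']
        abel
    exact ⟨- B.dA θ', by rw [map_neg]; exact eq_neg_of_add_eq_zero_left h3⟩

/-! ### Theorem 1: cycles with at most one letter outside `c P_e` are boundaries -/

lemma D_dS (y : M) : B.D (B.dS y) = - B.cc (B.D (B.dA y)) := by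
  rw [B.D_apply, B.D_apply, B.dSS, B.dAS, B.dAA, map_neg, map_zero, zero_add, add_zero]

lemma thm1_zero {p : ℕ} (h1 : B.XA 0 p (e + 2)) (h2 : B.XSQ 0 (p + 1) 1) {Θ : M}
    (hΘ : Θ ∈ B.G 0 p (2 * e + 2)) (hc : B.dA Θ = 0) :
    ∃ η ∈ B.FL 3 (p + 1) (e + 1), B.D η = Θ := by
  obtain ⟨X, hX, hX'⟩ := h1 Θ (by rwa [show e + 2 + e = 2 * e + 2 by ring]) hc
  have hXm : X ∈ B.G 0 (p + 1) (1 + (e + 1)) := by
    rwa [show 1 + (e + 1) = e + 2 by ring]
  obtain ⟨Y, hY, z, hz⟩ := h2 X hXm ⟨0, by rw [B.dS_zero hX, map_zero]⟩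
  have hzm : z ∈ B.G 0 (p + 1) (e + 1) := by
    apply B.cc_strict
    have h3 : B.cc z = X - B.dS Y := by rw [hz]; abel
    rw [h3, show e + 1 + 1 = 1 + (e + 1) by ring]
    exact sub_mem hXm (B.dS_mem hY)
  refine ⟨z - B.dA Y, sub_mem (B.G_le_FL (by omega) (by omega) hzm)
    (B.G_le_FL (a := 1) (b := p) (by omega) (by omega) ?_), ?_⟩
  · have := B.dA_mem hY
    rwa [show 1 + e = e + 1 by ring] at this
  · apply B.cc_inj'
    have h4 : B.D X = B.cc Θ := by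
      rw [B.D_apply, B.dS_zero hX, hX', zero_add]
    rw [← h4, hz, map_add, B.D_dS, B.D_cc, map_sub, map_sub]
    abel

lemma thm1_one {p : ℕ} (h1 : B.XA 1 p (e + 2)) (h2 : B.XA 0 (p + 1) (e + 3))
    (h3 : B.XSQ 0 (p + 2) 2) (h4 : B.XSQ 1 (p + 1) 1) (h5 : B.XSQ 0 (p + 2) 1) {Θ1 Θ0 : M}
    (hΘ1 : Θ1 ∈ B.G 1 p (2 * e + 2)) (hΘ0 : Θ0 ∈ B.G 0 (p + 1) (2 * e + 2))
    (hc1 : B.dA Θ1 = 0) (hc0 : B.dS Θ1 + B.cc (B.dA Θ0) = 0) :
    ∃ η ∈ B.FL 3 (p + 2) (e + 1), B.D η = Θ1 + Θ0 := by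
  obtain ⟨X1, hX1, hX1'⟩ := h1 Θ1 (by rwa [show e + 2 + e = 2 * e + 2 by ring]) hc1
  have hm0 : B.cc Θ0 - B.dS X1 ∈ B.G 0 (p + 1) (e + 3 + e) := by
    rw [show e + 3 + e = 2 * e + 2 + 1 by ring]
    refine sub_mem (B.cc_mem hΘ0) ?_
    have := B.dS_mem hX1
    rwa [show e + 2 + (e + 1) = 2 * e + 2 + 1 by ring] at this
  have hcl : B.dA (B.cc Θ0 - B.dS X1) = 0 := by
    rw [map_sub, B.dAc, B.dAS, hX1', sub_neg_eq_add, add_comm]
    exact hc0
  obtain ⟨X0, hX0, hX0'⟩ := h2 _ hm0 hcl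
  have hX0m : X0 ∈ B.G 0 (p + 2) (2 + (e + 1)) := by
    rwa [show 2 + (e + 1) = e + 3 by ring]
  obtain ⟨W, hW, Z0, hZ0⟩ := h3 X0 hX0m ⟨0, by rw [B.dS_zero hX0, map_zero]⟩
  have hZ0m : Z0 ∈ B.G 0 (p + 2) (1 + (e + 1)) := by
    apply B.cc_strict
    have h6 : B.cc Z0 = X0 - B.dS W := by rw [hZ0]; abel
    rw [h6, show 1 + (e + 1) + 1 = 2 + (e + 1) by ring]
    exact sub_mem hX0m (B.dS_mem hW)
  obtain ⟨Z1, hZ1⟩ : ∃ Z1, Z1 = X1 - B.dA W := ⟨_, rfl⟩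
  have hZ1m : Z1 ∈ B.G 1 (p + 1) (1 + (e + 1)) := by
    rw [show 1 + (e + 1) = e + 2 by ring, hZ1]
    refine sub_mem hX1 ?_
    have := B.dA_mem hW
    rwa [show 2 + e = e + 2 by ring] at this
  have hZ1A : B.dA Z1 = Θ1 := by rw [hZ1, map_sub, B.dAA, hX1', sub_zero]
  have hk : B.cc Θ0 = B.dS Z1 + B.cc (B.dA Z0) := by
    have h7 : B.cc Θ0 = B.dS X1 + B.dA X0 := by rw [hX0']; abel
    rw [h7, hZ0, hZ1, map_add, map_sub, B.dAS, B.dAc]
    abel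
  obtain ⟨Y2, hY2, u1, hu1⟩ := h4 Z1 hZ1m ⟨Θ0 - B.dA Z0, by rw [map_sub B.cc, hk]; abel⟩
  obtain ⟨Y1, hY1, u0, hu0⟩ := h5 Z0 hZ0m ⟨0, by rw [B.dS_zero hZ0m, map_zero]⟩
  have hu1m : u1 ∈ B.G 1 (p + 1) (e + 1) := by
    apply B.cc_strict
    have h6 : B.cc u1 = Z1 - B.dS Y2 := by rw [hu1]; abel
    rw [h6, show e + 1 + 1 = 1 + (e + 1) by ring]
    exact sub_mem hZ1m (B.dS_mem hY2)
  have hu0m : u0 ∈ B.G 0 (p + 2) (e + 1) := by
    apply B.cc_strict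
    have h6 : B.cc u0 = Z0 - B.dS Y1 := by rw [hu0]; abel
    rw [h6, show e + 1 + 1 = 1 + (e + 1) by ring]
    exact sub_mem hZ0m (B.dS_mem hY1)
  refine ⟨(u1 - B.dA Y2) + (u0 - B.dA Y1), ?_, ?_⟩
  · refine add_mem (sub_mem (B.G_le_FL (a := 1) (b := p + 1) (by omega) (by omega) hu1m)
      (B.G_le_FL (a := 2) (b := p) (by omega) (by omega) ?_))
      (sub_mem (B.G_le_FL (a := 0) (b := p + 2) (by omega) (by omega) hu0m)
      (B.G_le_FL (a := 1) (b := p + 1) (by omega) (by omega) ?_))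
    · have := B.dA_mem hY2
      rwa [show 1 + e = e + 1 by ring] at this
    · have := B.dA_mem hY1
      rwa [show 1 + e = e + 1 by ring] at this
  · apply B.cc_inj'
    have h8 : B.D (Z1 + Z0) = B.cc (Θ1 + Θ0) := by
      rw [map_add, B.D_apply, B.D_apply, B.dS_zero hZ0m, hZ1A, map_add, hk]
      abel
    rw [← h8, hu1, hu0]
    simp only [map_add, map_sub, B.D_dS, B.D_cc]
    abel

/-- the input of the recursion: `F(d - 1)` on `U`, `F(d - 1)` and `F(d)` (for less than `p`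
letters and coefficients of degree `> 2 d`) on `U / c`, and the elementary vanishing -/
structure Inp (p : ℕ) : Prop where
  hA : ∀ a b κ, e ≤ κ → b + 3 ≤ e + 2 * κ → B.XA a b κ
  hAQ : ∀ a b κ, e ≤ κ → b + 3 ≤ e + 2 * κ → B.XAQ a b κ
  hS0 : ∀ a b κ, a ≤ κ → B.XSQ a b κ
  hS : ∀ a b κ, a < p → e + 2 ≤ κ → B.XSQ a b κ

variable {B}

/-- **Theorem 1**. -/
theorem Inp.thm1 {p0 : ℕ} (H : B.Inp p0) {p : ℕ} (hp : p ≤ 3 * e + 1) {ω : M}
    (hω : ω ∈ B.FL 2 p (2 * e + 2)) (hc : B.D ω = 0) :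
    ∃ η ∈ B.FL 3 (p + 1) (e + 1), B.D η = ω := by
  rcases p with _ | p
  · have hω' := B.FL_succ_lt (s := 1) (p := 0) (by omega) hω
    obtain ⟨θ, hθ, ω0, hω0, rfl⟩ := B.FL_succ (s := 0) (m := 0) rfl hω'
    rw [B.FL_zero, Submodule.mem_bot] at hω0
    subst hω0
    rw [add_zero] at hc ⊢
    exact B.thm1_zero (H.hA _ _ _ (by omega) (by omega)) (H.hS0 _ _ _ (by omega)) hθ
      (B.dA_zero hθ)
  · obtain ⟨Θ1, hΘ1, ω1, hω1, rfl⟩ := B.FL_succ (s := 1) (m := p) (by omega) hω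
    obtain ⟨Θ0, hΘ0, ω0, hω0, rfl⟩ := B.FL_succ (s := 0) (m := p + 1) (by omega) hω1
    rw [B.FL_zero, Submodule.mem_bot] at hω0
    subst hω0
    rw [add_zero] at hc hω1 ⊢
    obtain ⟨h1, h2⟩ := B.top_closed hΘ1 (by rwa [show 1 + p = p + 1 by ring]) hc
    rw [B.D_apply, B.dS_zero hΘ0, zero_add] at h2
    exact B.thm1_one (H.hA _ _ _ (by omega) (by omega)) (H.hA _ _ _ (by omega) (by omega))
      (H.hS0 _ _ _ (by omega)) (H.hS0 _ _ _ (by omega)) (H.hS0 _ _ _ (by omega)) hΘ1 hΘ0 h1 h2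

/-- **Theorem 2 (a)**: a leading component which is divisible by `c` can be removed. -/
theorem Inp.reduce {p0 : ℕ} (H : B.Inp p0) {s m : ℕ} (hm : m + 1 ≤ 3 * e) {θ z : M}
    (hθ : θ ∈ B.G s m (2 * e + 2)) (hc : B.dA θ = 0) (hz : θ = B.cc z) :
    ∃ w ∈ B.G s (m + 1) (e + 1), ∃ ω ∈ B.FL s (s + m) (2 * e + 2), θ = B.D w + ω := by
  have hzm : z ∈ B.G s m (e + 1 + e) := by
    apply B.cc_strict
    rwa [← hz, show e + 1 + e + 1 = 2 * e + 2 by ring]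
  have hzc : B.dA z = 0 := by
    apply B.cc_inj
    rw [← B.dAc, ← hz, hc]
  obtain ⟨w, hw, hw'⟩ := H.hA s m (e + 1) (by omega) (by omega) z hzm hzc
  refine ⟨w, hw, - B.dS w, neg_mem ?_, ?_⟩
  · have := B.dS_G hw
    rwa [show e + 1 + (e + 1) = 2 * e + 2 by ring] at this
  · rw [B.D_apply, hw', hz]
    abel

/-- **Theorem 2 (b)**: elements `y` closed for `dA` modulo `c` can be changed to closed ones, and
`dS y` is the leading term (mod `c`) of a boundary. -/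
theorem Inp.topbd {p0 : ℕ} (H : B.Inp p0) {s m : ℕ} (hm : m + 2 ≤ 3 * e) {y : M}
    (hy : y ∈ B.G (s + 1) m (e + 1)) (hc : ∃ z, B.dA y = B.cc z) :
    ∃ y' ∈ B.G (s + 1) m (e + 1), ∃ r, B.dA y' = 0 ∧ B.D y' = B.dS y' ∧
      B.dS y = B.dS y' + B.cc r := by
  obtain ⟨y', hy', h1, r, hr⟩ := B.lift' (a := s + 1) (b := m) (κ := e)
    (fun b' hb' => H.hA _ _ _ (by omega) (by omega)) hy hc
  refine ⟨y', hy', B.dS r, h1, ?_, ?_⟩
  · rw [B.D_apply, h1, map_zero, add_zero]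
  · rw [hr, map_add, B.dSc]

/-- completion of a leading term to a cycle -/
theorem Inp.complete {p : ℕ} (hp : p ≤ 3 * e) (H : B.Inp p) : ∀ (s m : ℕ), s + m ≤ p → ∀ θ ∈ B.G s m (2 * e + 2),
    B.dS (B.dA θ) = 0 → (∃ q, B.dS θ = B.cc q) →
    ∃ Ω ∈ B.FL s (s + m) (2 * e + 2), B.dS θ + B.D Ω = 0 := by
  intro s
  induction s with
  | zero =>
    intro m _ θ hθ _ _
    exact ⟨0, zero_mem _, by rw [B.dS_zero hθ, map_zero, add_zero]⟩
  | succ s ih =>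
    intro m hsm θ hθ hSA hq
    obtain ⟨q, hq⟩ := hq
    have hqm : q ∈ B.G s m (2 * e + 2 + e) := by
      apply B.cc_strict
      rw [← hq]
      exact B.dS_mem hθ
    have hqA : B.dA q = 0 := by
      apply B.cc_inj
      rw [← B.dAc, ← hq, B.dAS, hSA, neg_zero]
    have hqS : B.dS q = 0 := by
      apply B.cc_inj
      rw [← B.dSc, ← hq, B.dSS]
    obtain ⟨θ1, hθ1, hθ1'⟩ := H.hA s m (2 * e + 2) (by omega) (by omega) q hqm hqA
    -- correct `θ1` so that `dS θ1` is divisible by `c`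
    have key : ∃ θ2 ∈ B.G s (m + 1) (2 * e + 2), B.dA θ2 = q ∧ ∃ z, B.dS θ2 = B.cc z := by
      rcases s with _ | s
      · exact ⟨θ1, hθ1, hθ1', 0, by rw [B.dS_zero hθ1, map_zero]⟩
      · have h1 : B.dS θ1 ∈ B.G s (m + 1) (e + 2 + (e + 1) + e) := by
          have := B.dS_mem hθ1
          rwa [show 2 * e + 2 + (e + 1) = e + 2 + (e + 1) + e by ring] at this
        have h2 : B.dA (B.dS θ1) = 0 := by rw [B.dAS, hθ1', hqS, neg_zero]
        obtain ⟨η, hη, hη', z, hz⟩ := B.lemmaZ s (m + 1) (e + 2)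
          (fun j hj => H.hAQ _ _ _ (by omega) (by omega))
          (fun j hj => H.hS _ _ _ (by omega) (by omega)) (B.dS θ1) h1
          ⟨0, by rw [h2, map_zero]⟩ ⟨0, by rw [B.dSS, map_zero]⟩
        refine ⟨θ1 - η, sub_mem hθ1 ?_, by rw [map_sub, hη', hθ1', sub_zero], z, ?_⟩
        · rwa [show e + 2 + e = 2 * e + 2 by ring] at hη
        · rw [map_sub, hz]; abel
    obtain ⟨θ2, hθ2, hθ2', hz⟩ := key
    obtain ⟨Ω, hΩ, hΩ'⟩ := ih (m + 1) (by omega) θ2 hθ2 (by rw [hθ2', hqS]) hz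
    refine ⟨- (θ2 + Ω), neg_mem (add_mem (B.G_le_FL (Nat.lt_succ_self s) (by omega) hθ2) ?_), ?_⟩
    · have := B.FL_mono (Nat.le_succ s) hΩ
      rwa [show s + (m + 1) = s + 1 + m by ring] at this
    · have h3 : B.D (θ2 + Ω) = B.cc q := by
        rw [map_add, B.D_apply θ2, hθ2', add_right_comm, hΩ', zero_add]
      rw [map_neg, h3, hq]
      abel

/-- **Lifting**: every leading term modulo `c` which is bi-closed modulo `c` is the leading term of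
a cycle. -/
theorem Inp.lifting {p : ℕ} (hp : p ≤ 3 * e) (H : B.Inp p) {s m : ℕ} (hsm : s + m ≤ p) {θ : M}
    (hθ : θ ∈ B.G s m (2 * e + 2)) (hA : ∃ z, B.dA θ = B.cc z) (hS : ∃ z, B.dS θ = B.cc z) :
    ∃ θ' ∈ B.G s m (2 * e + 2), ∃ Ω ∈ B.FL s (s + m) (2 * e + 2), B.D (θ' + Ω) = 0 ∧
      B.dA θ' = 0 ∧ ∃ r, θ = θ' + B.cc r := by
  obtain ⟨θ', hθ', h1, r, hr⟩ := B.lift' (a := s) (b := m) (κ := 2 * e + 1)
    (fun b' hb' => H.hA _ _ _ (by omega) (by omega)) hθ hA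
  obtain ⟨z, hz⟩ := hS
  obtain ⟨Ω, hΩ, hΩ'⟩ := Inp.complete hp H s m hsm θ' hθ' (by rw [h1, map_zero])
    ⟨z - B.dS r, by rw [map_sub, ← hz, hr, map_add, B.dSc]; abel⟩
  refine ⟨θ', hθ', Ω, hΩ, ?_, h1, r, hr⟩
  rw [map_add, B.D_apply θ', h1, map_zero, add_zero]
  exact hΩ'

end Bi

end Pool.Agent.H40.OPR
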